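import Pool.Agent.H27.Lev3

set_option autoImplicit false

namespace Pool.Agent.Results.MP_e39433_co.Level

open Matrix Pool.Agent.H27.Lev

variable {n : ℕ} (G : SimpleGraph (Fin n)) [DecidableRel G.Adj]

/-- the walk matrix `[e, Ae, …, A^(n-1) e]` -/
def walk : Matrix (Fin n) (Fin n) ℤ := fun i j => (G.adjMatrix ℤ ^ (j : ℕ) *ᵥ 1) i

/-- the rational regular orthogonal `Q` with `QᵀAQ` a `(0,1)`-matrix -/
def QQ : Set (Matrix (Fin n) (Fin n) ℚ) :=
  {Q | Qᵀ * Q = 1 ∧ Q *ᵥ 1 = 1 ∧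
    ∀ i j, (Qᵀ * G.adjMatrix ℚ * Q) i j = 0 ∨ (Qᵀ * G.adjMatrix ℚ * Q) i j = 1}

/-- the least positive integer `k` with `kQ` integral -/
noncomputable def level (Q : Matrix (Fin n) (Fin n) ℚ) : ℕ :=
  sInf {k | 0 < k ∧ ∀ i j, ∃ z : ℤ, k * Q i j = z}

/-- the least common multiple of the levels -/
noncomputable def L : ℕ := sInf {k | 0 < k ∧ ∀ Q ∈ QQ G, level Q ∣ k}

theorem result {m : ℕ} (G : SimpleGraph (Fin (m + 2))) [DecidableRel G.Adj]
    (hW : (walk G).det ≠ 0) (U V : Matrix (Fin (m + 2)) (Fin (m + 2)) ℤ) (hU : IsUnit U.det)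
    (hV : IsUnit V.det) (d : Fin (m + 2) → ℕ)
    (hd : U * walk G * V = diagonal fun i => (d i : ℤ)) (hp : ∀ i, 0 < d i)
    (hdv : ∀ i j, i ≤ j → d i ∣ d j) :
    0 < L G ∧ L G ^ 2 ∣ d (Fin.last (m + 1)) * d (Fin.last m).castSucc ∧
      ∀ p : ℕ, p.Prime → 2 * padicValNat p (L G) ≤
        padicValNat p (d (Fin.last (m + 1))) + padicValNat p (d (Fin.last m).castSucc) := by
  obtain ⟨k, h1, h2⟩ := main (G.adjMatrix ℤ) (walk G) U V G.transpose_adjMatrix (fun _ _ => rfl)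
    hW hU hV d hd hp hdv
  have h0 := Nat.mul_pos (hp (Fin.last _)) (hp (Fin.last m).castSucc)
  have hk : 0 < k := Nat.pos_of_ne_zero fun h => by
    rw [h] at h1
    exact h0.ne' (by simpa using h1)
  have e : (G.adjMatrix ℤ).map (Int.castRingHom ℚ) = G.adjMatrix ℚ := by
    ext i j; simp [apply_ite]
  obtain ⟨h3, h4⟩ := sInf_dvd (fun k => ∀ Q ∈ QQ G, level Q ∣ k)
    (fun a b ha hb Q hQ => (Nat.dvd_mod_iff (hb Q hQ)).2 (ha Q hQ)) hk fun Q hQ =>
      (sInf_dvd (fun k => ∀ i j, ∃ z : ℤ, k * Q i j = z) (fun a b ha hb i j => by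
        obtain ⟨x, hx⟩ := ha i j
        obtain ⟨y, hy⟩ := hb i j
        have := congrArg (Nat.cast : ℕ → ℚ) (Nat.mod_add_div a b)
        push_cast at this
        exact ⟨x - (a / b : ℕ) * y, by
          rw [Int.cast_sub, Int.cast_mul, Int.cast_natCast, ← hx, ← hy, ← this]; ring⟩) hk
        (h2 Q hQ.1 hQ.2.1 fun i j => by
          rw [e]
          rcases hQ.2.2 i j with h | h
          exacts [⟨0, by simp [h]⟩, ⟨1, by simp [h]⟩])).2
  have h5 : L G ^ 2 ∣ _ := (pow_dvd_pow_of_dvd h4 2).trans h1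
  refine ⟨h3, h5, fun p hp' => ?_⟩
  haveI := Fact.mk hp'
  rw [← padicValNat.mul (hp _).ne' (hp _).ne', ← padicValNat.pow,
    ← padicValNat_dvd_iff_le h0.ne']
  exact pow_padicValNat_dvd.trans h5

end Pool.Agent.Results.MP_e39433_co.Level
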